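import Pool.Agent.U483.KT.Defs

/-!
# Isomorphic motives: definitions
-/

set_option autoImplicit false

open CategoryTheory CategoryTheory.Limits AlgebraicGeometry MonoidalCategory Pool.Agent.Y116.UV
  Pool.Agent.U483.KM Pool.Agent.U483.GU Pool.Agent.U483.KS Pool.Agent.U483.KT

namespace Pool.Agent.U483.KR

universe w x y z

variable {k F : Type} [Field k] [Field F] {𝓜 : Type w} [Category.{x} 𝓜]
  [Preadditive 𝓜] [Linear F 𝓜] [HasBinaryBiproducts 𝓜] [MonoidalCategory 𝓜]

/-- The classes of `X` and `X'` are equal up to a nonzero integer and a power of `𝕃`: `n [X] 𝕃^m = n [X'] 𝕃^m`. -/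
def LEquivalent (H : PureMotives.{w, x} k F 𝓜) (T : Twists.{w, x} 𝓜) (X X' : Var k) : Prop :=
  ∃ n : ℤ, n ≠ 0 ∧ (n • cls X = n • cls X' ∨ ∃ (m : ℤ) (c c' : K0 k),
    Represents H c (H.h X.1 ⊗ T.T m) ∧ Represents H c' (H.h X'.1 ⊗ T.T m) ∧ n • c = n • c')

/-- The subgroup of `K_0(Var_k)` generated by the classes of the smooth projective schemes whose motives are sums of Tate
motives. -/
def tateGroup (H : PureMotives.{w, x} k F 𝓜) (T : Twists.{w, x} 𝓜) : AddSubgroup (K0 k) :=
  goodGroup fun Z => Span (fun A => ∃ m : ℤ, A = T.T m) (H.h Z)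

/-- `f : M ⟶ A` is not split mono (for `A` the motive of `X` and `M = T (-i)`: a cycle class of codimension `i` which is
numerically trivial). -/
def NonSplit {M A : 𝓜} (f : M ⟶ A) : Prop := ∀ g : A ⟶ M, f ≫ g ≠ 𝟙 M

/-- For all `i` the dimension of the space of the cycle classes of codimension `i` modulo numerical equivalence is the
same for `A` and `B`. -/
def SameRanks (F : Type) [Field F] [Linear F 𝓜] (T : Twists.{w, x} 𝓜) (A B : 𝓜) : Prop :=
  ∀ (m : ℤ) (U : Submodule F (T.T m ⟶ A)) (V : Submodule F (T.T m ⟶ B)),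
    (∀ f, f ∈ U ↔ NonSplit f) → (∀ f, f ∈ V ↔ NonSplit f) →
    Module.finrank F ((T.T m ⟶ A) ⧸ U) = Module.finrank F ((T.T m ⟶ B) ⧸ V)

/-- The Chow motives: `π` is the functor to the homological motives; it is full, and `hC X` is the Chow motive of `X`. -/
structure ChowMotives (H : PureMotives.{w, x} k F 𝓜) (𝒞 : Type y) [Category.{z} 𝒞]
    [Preadditive 𝒞] where
  /-- the functor to the motives modulo homological equivalence -/
  π : 𝒞 ⥤ 𝓜
  additive : π.Additive
  full : π.Full
  /-- the Chow motive -/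
  hC : Sch k → 𝒞
  iso : ∀ X : Sch k, SmoothProjective X → Nonempty (π.obj (hC X) ≅ H.h X)

/-- The homologically trivial endomorphisms of the Chow motive `A` are nilpotent (Kimura: true if `A` is
finite-dimensional). -/
def NilpotentKernel {𝒞 : Type y} [Category.{z} 𝒞] [Preadditive 𝒞] (π : 𝒞 ⥤ 𝓜) (A : 𝒞) : Prop :=
  ∀ f : End A, π.map f = 0 → IsNilpotent f

end Pool.Agent.U483.KR
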