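import Mathlib

/-!
# The theorem of Krull, Remak and Schmidt in terms of additive functions
-/

set_option autoImplicit false

open CategoryTheory CategoryTheory.Limits Module Polynomial

namespace Pool.Agent.U483.KR

universe w x

section

variable {𝓜 : Type w} [Category.{x} 𝓜] [Preadditive 𝓜] [HasBinaryBiproducts 𝓜]
  [IsIdempotentComplete 𝓜]

/-- A direct factor has a complement. -/
lemma complement {A B : 𝓜} (s : A ⟶ B) (r : B ⟶ A) (h : s ≫ r = 𝟙 A) :
    ∃ A' : 𝓜, Nonempty (B ≅ A ⊞ A') ∧ (IsZero A' → r ≫ s = 𝟙 B) := by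
  obtain ⟨A', i, e, h1, h2⟩ := IsIdempotentComplete.idempotents_split B (𝟙 B - r ≫ s) (by
    simp only [Preadditive.sub_comp, Preadditive.comp_sub, Category.id_comp, Category.comp_id,
      Category.assoc]
    rw [reassoc_of% h]
    abel)
  have h3 : s ≫ e = 0 := by
    have h4 : s ≫ e ≫ i = 0 := by
      rw [h2, Preadditive.comp_sub, Category.comp_id, reassoc_of% h, sub_self]
    calc s ≫ e = (s ≫ e ≫ i) ≫ e := by simp [h1]
      _ = 0 := by rw [h4, Limits.zero_comp]
  have h5 : i ≫ r = 0 := by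
    have h4 : (e ≫ i) ≫ r = 0 := by
      rw [h2, Preadditive.sub_comp, Category.id_comp, Category.assoc, h, Category.comp_id, sub_self]
    calc i ≫ r = (i ≫ e) ≫ i ≫ r := by rw [h1, Category.id_comp]
      _ = i ≫ ((e ≫ i) ≫ r) := by simp only [Category.assoc]
      _ = i ≫ 0 := by rw [h4]
      _ = 0 := Limits.comp_zero
  refine ⟨A', ⟨⟨biprod.lift r e, biprod.desc s i, ?_, ?_⟩⟩, fun hz => ?_⟩
  · rw [biprod.lift_desc, h2]
    abel
  · ext <;> simp [h, h1, h3, h5]
  · rw [hz.eq_of_tgt e 0, Limits.zero_comp] at h2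
    exact (sub_eq_zero.1 h2.symm).symm

end

section

variable (F : Type) [Field F] {𝓜 : Type w} [Category.{x} 𝓜] [Preadditive 𝓜] [Linear F 𝓜]

/-- An object which is not zero and has no nontrivial idempotents. -/
def Indec {𝓜 : Type w} [Category.{x} 𝓜] [Preadditive 𝓜] (M : 𝓜) : Prop :=
  ¬ IsZero M ∧ ∀ p : M ⟶ M, p ≫ p = p → p = 0 ∨ p = 𝟙 M

/-- Fitting's lemma. -/
lemma fitting {E : Type x} [Ring E] [Algebra F E] [Module.Finite F E]
    (hE : ∀ e : E, e * e = e → e = 0 ∨ e = 1) (y : E) : IsNilpotent y ∨ IsUnit y := by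
  have hint : IsIntegral F y := Algebra.IsIntegral.isIntegral y
  have hp : minpoly F y ≠ 0 := minpoly.ne_zero hint
  obtain ⟨q, hq, hq'⟩ := exists_eq_pow_rootMultiplicity_mul_and_not_dvd (minpoly F y) hp 0
  set k := (minpoly F y).rootMultiplicity 0
  rw [C_0, sub_zero] at hq hq'
  have hcop : IsCoprime (X ^ (k + 1) : F[X]) q :=
    ((prime_X.irreducible.coprime_iff_not_dvd).2 hq').pow_left
  obtain ⟨a, b, hab⟩ := hcop
  have hz : aeval y (X ^ k * q) = 0 := by rw [← hq, minpoly.aeval]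
  have h1 : aeval y (a * X ^ (k + 1)) + aeval y (b * q) = 1 := by
    rw [← map_add, hab, map_one]
  have h2 : aeval y (a * X ^ (k + 1)) * aeval y (b * q) = 0 := by
    rw [← map_mul, show a * X ^ (k + 1) * (b * q) = (a * b * X) * (X ^ k * q) by ring, map_mul, hz,
      mul_zero]
  have h3 : aeval y (a * X ^ (k + 1)) * aeval y (a * X ^ (k + 1)) = aeval y (a * X ^ (k + 1)) := by
    have h4 : aeval y (b * q) = 1 - aeval y (a * X ^ (k + 1)) := eq_sub_of_add_eq' h1
    rw [h4, mul_sub, mul_one, sub_eq_zero] at h2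
    exact h2.symm
  rcases hE _ h3 with h4 | h4
  · left
    refine ⟨k + 1, ?_⟩
    have h5 : aeval y (b * q) = 1 := by rw [← h1, h4, zero_add]
    calc y ^ (k + 1) = aeval y (X ^ (k + 1) : F[X]) * aeval y (b * q) := by
          rw [h5, mul_one, map_pow, aeval_X]
      _ = 0 := by
          rw [← map_mul, show (X ^ (k + 1) : F[X]) * (b * q) = (b * X) * (X ^ k * q) by ring,
            map_mul, hz, mul_zero]
  · right
    have h5 : aeval y (X * (a * X ^ k)) = 1 := by
      rw [show X * (a * X ^ k) = a * X ^ (k + 1) by ring, h4]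
    have h6 : aeval y ((a * X ^ k) * X) = 1 := by
      rw [show (a * X ^ k) * X = a * X ^ (k + 1) by ring, h4]
    rw [map_mul, aeval_X] at h5 h6
    exact ⟨⟨y, aeval y (a * X ^ k), h5, h6⟩, rfl⟩

variable {F} [HasBinaryBiproducts 𝓜]

lemma isIso_or {M : 𝓜} (hM : Indec M) (hfin : Module.Finite F (M ⟶ M)) (f g : M ⟶ M)
    (h : IsIso (f + g)) : IsIso f ∨ IsIso g := by
  have key : ∀ u v : M ⟶ M, u + v = 𝟙 M → IsIso u ∨ IsIso v := by
    intro u v huv
    have : Module.Finite F (End M) := hfin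
    let z : End M := u
    rcases fitting F (E := End M) (fun e he => hM.2 e he) z with ⟨n, hn⟩ | hu
    · right
      have h1 : IsUnit ((1 : End M) - z) := IsNilpotent.isUnit_one_sub ⟨n, hn⟩
      have h2 : (1 : End M) - z = v := by
        change 𝟙 M - u = v
        rw [← huv]
        abel
      rw [h2] at h1
      exact (isUnit_iff_isIso v).1 h1
    · left
      exact (isUnit_iff_isIso u).1 hu
  have h1 : f ≫ inv (f + g) + g ≫ inv (f + g) = 𝟙 M := by
    rw [← Preadditive.add_comp, IsIso.hom_inv_id]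
  rcases key _ _ h1 with h2 | h2
  · left
    exact IsIso.of_isIso_comp_right f (inv (f + g))
  · right
    exact IsIso.of_isIso_comp_right g (inv (f + g))

/-- the morphisms `M ⟶ A` which are not split mono -/
def Rad (M : 𝓜) (hM : Indec M) (hfin : Module.Finite F (M ⟶ M)) (A : 𝓜) : Submodule F (M ⟶ A) where
  carrier := {f | ∀ g : A ⟶ M, ¬ IsIso (f ≫ g)}
  zero_mem' := by
    intro g hg
    rw [Limits.zero_comp] at hg
    apply hM.1
    rw [IsZero.iff_id_eq_zero, ← IsIso.hom_inv_id (0 : M ⟶ M), Limits.zero_comp]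
  add_mem' := by
    intro f f' hf hf' g hg
    rw [Preadditive.add_comp] at hg
    exact (isIso_or hM hfin _ _ hg).elim (hf g) (hf' g)
  smul_mem' := by
    intro c f hf g hg
    apply hf (c • g)
    rwa [Linear.comp_smul, ← Linear.smul_comp]

/-- the multiplicity of `M` in `A`, times a constant -/
noncomputable def rk (M : 𝓜) (hM : Indec M) (hfin : Module.Finite F (M ⟶ M)) (A : 𝓜) : ℤ :=
  (finrank F (M ⟶ A) : ℤ) - finrank F (Rad M hM hfin A)

variable {M : 𝓜} (hM : Indec M) (hfin : ∀ A B : 𝓜, Module.Finite F (A ⟶ B))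

lemma rk_iso {A B : 𝓜} (e : A ≅ B) : rk M hM (hfin M M) A = rk M hM (hfin M M) B := by
  let l : (M ⟶ A) ≃ₗ[F] (M ⟶ B) := Linear.homCongr F (Iso.refl M) e
  have hl : ∀ f, l f = f ≫ e.hom := fun f => by simp [l, Linear.homCongr]
  have h1 : (Rad M hM (hfin M M) A).map (l : (M ⟶ A) →ₗ[F] (M ⟶ B)) = Rad M hM (hfin M M) B := by
    ext f
    constructor
    · rintro ⟨f, hf, rfl⟩ g hg
      apply hf (e.hom ≫ g)
      change IsIso (l f ≫ g) at hg
      rwa [hl, Category.assoc] at hg
    · intro hf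
      refine ⟨f ≫ e.inv, fun g hg => hf (e.inv ≫ g) ?_, ?_⟩
      · rwa [Category.assoc] at hg
      · change l _ = _
        rw [hl, Category.assoc, e.inv_hom_id, Category.comp_id]
  rw [rk, rk, l.finrank_eq, ← h1, LinearEquiv.finrank_map_eq l]

lemma finrank_prod_sub {V W : Type x} [AddCommGroup V] [Module F V] [AddCommGroup W] [Module F W]
    [Module.Finite F V] [Module.Finite F W] (p : Submodule F V) (q : Submodule F W) :
    Module.finrank F (p.prod q) = Module.finrank F p + Module.finrank F q := by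
  let e : (p.prod q) ≃ₗ[F] p × q :=
    { toFun := fun t => (⟨t.1.1, t.2.1⟩, ⟨t.1.2, t.2.2⟩)
      invFun := fun t => ⟨(t.1.1, t.2.1), t.1.2, t.2.2⟩
      left_inv := fun _ => rfl
      right_inv := fun _ => rfl
      map_add' := fun _ _ => rfl
      map_smul' := fun _ _ => rfl }
  rw [e.finrank_eq, Module.finrank_prod]

lemma rk_sum (A B : 𝓜) :
    rk M hM (hfin M M) (A ⊞ B) = rk M hM (hfin M M) A + rk M hM (hfin M M) B := by
  let l : (M ⟶ A ⊞ B) ≃ₗ[F] (M ⟶ A) × (M ⟶ B) :=
    { toFun := fun f => (f ≫ biprod.fst, f ≫ biprod.snd)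
      invFun := fun f => biprod.lift f.1 f.2
      left_inv := fun f => by ext <;> simp
      right_inv := fun f => by ext <;> simp
      map_add' := fun f g => by ext <;> simp
      map_smul' := fun c f => by ext <;> simp }
  have hf1 := hfin M A
  have hf2 := hfin M B
  have h2 : (Rad M hM (hfin M M) (A ⊞ B)).map (l : (M ⟶ A ⊞ B) →ₗ[F] _) =
      (Rad M hM (hfin M M) A).prod (Rad M hM (hfin M M) B) := by
    ext ⟨f, g⟩
    constructor
    · rintro ⟨u, hu, h3⟩
      have h4 : (u ≫ biprod.fst, u ≫ biprod.snd) = (f, g) := h3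
      rw [Prod.mk.injEq] at h4
      refine ⟨fun v hv => hu (biprod.fst ≫ v) ?_, fun v hv => hu (biprod.snd ≫ v) ?_⟩
      · change IsIso (f ≫ v) at hv
        rwa [← h4.1, Category.assoc] at hv
      · change IsIso (g ≫ v) at hv
        rwa [← h4.2, Category.assoc] at hv
    · rintro ⟨h3, h4⟩
      refine ⟨biprod.lift f g, fun v hv => ?_, ?_⟩
      · have h5 : biprod.lift f g ≫ v = f ≫ (biprod.inl ≫ v) + g ≫ (biprod.inr ≫ v) := by
          rw [← Category.assoc, ← Category.assoc, ← Preadditive.add_comp]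
          congr 1
          ext <;> simp
        rw [h5] at hv
        exact (isIso_or hM (hfin M M) _ _ hv).elim (h3 _) (h4 _)
      · change (biprod.lift f g ≫ biprod.fst, biprod.lift f g ≫ biprod.snd) = (f, g)
        simp
  have h3 : finrank F (Rad M hM (hfin M M) (A ⊞ B)) =
      finrank F (Rad M hM (hfin M M) A) + finrank F (Rad M hM (hfin M M) B) := by
    rw [← LinearEquiv.finrank_map_eq l (Rad M hM (hfin M M) (A ⊞ B)), h2, finrank_prod_sub]
  rw [rk, rk, rk, l.finrank_eq, h3, Module.finrank_prod]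
  push_cast
  ring

lemma rk_self_ne : rk M hM (hfin M M) M ≠ 0 := by
  intro h
  have hf := hfin M M
  rw [rk, sub_eq_zero] at h
  have h1 := Submodule.eq_top_of_finrank_eq (by exact_mod_cast h.symm :
    finrank F (Rad M hM (hfin M M) M) = finrank F (M ⟶ M))
  have h2 : 𝟙 M ∈ Rad M hM (hfin M M) M := by
    rw [h1]
    trivial
  exact h2 (𝟙 M) (by rw [Category.comp_id]; infer_instance)

lemma retract_of_rk {A : 𝓜} (h : rk M hM (hfin M M) A ≠ 0) :
    ∃ (s : M ⟶ A) (r : A ⟶ M), s ≫ r = 𝟙 M := by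
  by_contra hc
  push Not at hc
  apply h
  have h1 : Rad M hM (hfin M M) A = ⊤ := by
    rw [Submodule.eq_top_iff']
    intro f g hg
    exact hc f (g ≫ inv (f ≫ g)) (by rw [← Category.assoc, IsIso.hom_inv_id])
  rw [rk, h1, finrank_top, sub_self]

lemma rk_zero {A : 𝓜} (hA : IsZero A) : rk M hM (hfin M M) A = 0 := by
  by_contra h
  obtain ⟨s, r, hsr⟩ := retract_of_rk hM hfin h
  apply hM.1
  rw [IsZero.iff_id_eq_zero, ← hsr, hA.eq_of_tgt s 0, Limits.zero_comp]

include hfin in
omit [HasBinaryBiproducts 𝓜] in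
lemma isZero_of_finrank {A : 𝓜} (h : finrank F (A ⟶ A) = 0) : IsZero A := by
  have := hfin A A
  have h1 : Subsingleton (A ⟶ A) := finrank_zero_iff.1 h
  exact (IsZero.iff_id_eq_zero A).2 (Subsingleton.elim _ _)

include hfin in
lemma finrank_lt {A A' B : 𝓜} (e : B ≅ A ⊞ A') (hA : ¬ IsZero A') :
    finrank F (A ⟶ A) < finrank F (B ⟶ B) := by
  have := hfin A A
  have := hfin A' A'
  have := hfin B B
  let l : (A ⟶ A) × (A' ⟶ A') →ₗ[F] (B ⟶ B) :=
    { toFun := fun t => e.hom ≫ (biprod.fst ≫ t.1 ≫ biprod.inl + biprod.snd ≫ t.2 ≫ biprod.inr) ≫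
        e.inv
      map_add' := fun s t => by
        simp only [Prod.fst_add, Prod.snd_add, Preadditive.add_comp, Preadditive.comp_add]
        abel
      map_smul' := fun c t => by
        simp only [Prod.smul_fst, Prod.smul_snd, Linear.smul_comp, Linear.comp_smul, RingHom.id_apply,
          smul_add, Preadditive.add_comp, Preadditive.comp_add] }
  have hl : Function.Injective l := by
    rintro ⟨u, v⟩ ⟨u', v'⟩ h
    have h1 : e.hom ≫ (biprod.fst ≫ u ≫ biprod.inl + biprod.snd ≫ v ≫ biprod.inr) ≫ e.inv =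
        e.hom ≫ (biprod.fst ≫ u' ≫ biprod.inl + biprod.snd ≫ v' ≫ biprod.inr) ≫ e.inv := h
    rw [cancel_epi, cancel_mono] at h1
    have h2 := congrArg (fun t => biprod.inl ≫ t ≫ biprod.fst) h1
    have h3 := congrArg (fun t => biprod.inr ≫ t ≫ biprod.snd) h1
    simp at h2 h3
    rw [h2, h3]
  have h1 := LinearMap.finrank_le_finrank_of_injective hl
  rw [finrank_prod] at h1
  have h2 : finrank F (A' ⟶ A') ≠ 0 := fun h => hA (isZero_of_finrank hfin h)
  omega

variable [IsIdempotentComplete 𝓜]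

include hfin in
/-- Nonzero objects have indecomposable direct factors. -/
lemma exists_indec : ∀ (n : ℕ) (A : 𝓜), finrank F (A ⟶ A) ≤ n → ¬ IsZero A →
    ∃ (M : 𝓜) (s : M ⟶ A) (r : A ⟶ M), Indec M ∧ s ≫ r = 𝟙 M := by
  intro n
  induction n with
  | zero => exact fun A h hA => absurd (isZero_of_finrank hfin (Nat.le_zero.1 h)) hA
  | succ n ih =>
    intro A h hA
    by_cases hI : Indec A
    · exact ⟨A, 𝟙 A, 𝟙 A, hI, Category.comp_id _⟩
    · have h1 : ∃ p : A ⟶ A, p ≫ p = p ∧ p ≠ 0 ∧ p ≠ 𝟙 A := by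
        by_contra hc
        push Not at hc
        exact hI ⟨hA, fun p hp => or_iff_not_imp_left.2 fun h0 => hc p hp h0⟩
      obtain ⟨p, hp, h0, h1⟩ := h1
      obtain ⟨Y, i, e, hie, hei⟩ := IsIdempotentComplete.idempotents_split A p hp
      obtain ⟨Y', ⟨φ⟩, hφ⟩ := complement i e hie
      have hY : ¬ IsZero Y := fun hY => h0 (by rw [← hei, hY.eq_of_tgt e 0, Limits.zero_comp])
      have hY' : ¬ IsZero Y' := fun hY' => h1 (hei ▸ hφ hY')
      obtain ⟨M, s, r, h3, h4⟩ := ih Y (by have := finrank_lt hfin φ hY'; omega) hY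
      refine ⟨M, s ≫ i, e ≫ r, h3, ?_⟩
      rw [Category.assoc, ← Category.assoc i, hie, Category.id_comp, h4]

include hfin in
/-- Two objects with the same multiplicities are isomorphic. -/
theorem iso_of_rk : ∀ (n : ℕ) (A B : 𝓜), finrank F (A ⟶ A) ≤ n →
    (∀ (M : 𝓜) (hM : Indec M), rk M hM (hfin M M) A = rk M hM (hfin M M) B) →
    Nonempty (A ≅ B) := by
  intro n
  have hzero : ∀ A B : 𝓜, IsZero A →
      (∀ (M : 𝓜) (hM : Indec M), rk M hM (hfin M M) A = rk M hM (hfin M M) B) → Nonempty (A ≅ B) := by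
    intro A B hA h
    have hB : IsZero B := by
      by_contra hB
      obtain ⟨M, s, r, hM, hsr⟩ := exists_indec hfin _ B le_rfl hB
      obtain ⟨B', ⟨e⟩, _⟩ := complement s r hsr
      have h1 := h M hM
      rw [rk_zero hM hfin hA, rk_iso hM hfin e, rk_sum hM hfin] at h1
      have h2 := rk_self_ne hM hfin
      have h3 : ∀ C : 𝓜, 0 ≤ rk M hM (hfin M M) C := by
        intro C
        have := hfin M C
        have h4 := Submodule.finrank_le (Rad M hM (hfin M M) C)
        rw [rk]
        omega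
      have h5 := h3 M
      have h6 := h3 B'
      omega
    exact ⟨hA.iso hB⟩
  induction n with
  | zero => exact fun A B hA h => hzero A B (isZero_of_finrank hfin (Nat.le_zero.1 hA)) h
  | succ n ih =>
    intro A B hA h
    by_cases hz : IsZero A
    · exact hzero A B hz h
    · obtain ⟨M, s, r, hM, hsr⟩ := exists_indec hfin _ A le_rfl hz
      obtain ⟨A', ⟨e⟩, _⟩ := complement s r hsr
      have h3 : ∀ C : 𝓜, 0 ≤ rk M hM (hfin M M) C := by
        intro C
        have := hfin M C
        have h4 := Submodule.finrank_le (Rad M hM (hfin M M) C)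
        rw [rk]
        omega
      have h1 : rk M hM (hfin M M) B ≠ 0 := by
        rw [← h M hM, rk_iso hM hfin e, rk_sum hM hfin]
        have h2 := rk_self_ne hM hfin
        have h5 := h3 M
        have h6 := h3 A'
        omega
      obtain ⟨s', r', hsr'⟩ := retract_of_rk hM hfin h1
      obtain ⟨B', ⟨e'⟩, _⟩ := complement s' r' hsr'
      have hlt : finrank F (A' ⟶ A') < finrank F (A ⟶ A) :=
        finrank_lt hfin (e ≪≫ biprod.braiding M A') hM.1
      obtain ⟨φ⟩ := ih A' B' (by omega) fun N hN => by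
        have h4 := h N hN
        rw [rk_iso hN hfin e, rk_iso hN hfin e', rk_sum hN hfin, rk_sum hN hfin] at h4
        omega
      exact ⟨e ≪≫ biprod.mapIso (Iso.refl M) φ ≪≫ e'.symm⟩

end

end Pool.Agent.U483.KR
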