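import Pool.Agent.U483.KR.Defs
import Pool.Agent.U483.KR.Krull
import Pool.Agent.U483.KT.Res

/-!
# Isomorphic motives of `L`-equivalent varieties
-/

set_option autoImplicit false

open CategoryTheory CategoryTheory.Limits AlgebraicGeometry MonoidalCategory Pool.Agent.Y116.UV
  Pool.Agent.U483.KM Pool.Agent.U483.GU Pool.Agent.U483.KS Pool.Agent.U483.KT

namespace Pool.Agent.U483.KR

universe w x y z

section

variable {F : Type} [Field F] {𝓜 : Type w} [Category.{x} 𝓜] [Preadditive 𝓜] [Linear F 𝓜]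
  [HasBinaryBiproducts 𝓜]

lemma retract_iso {M N : 𝓜} (hN : Indec N) (hM : Indec M) (s : M ⟶ N) (r : N ⟶ M)
    (h : s ≫ r = 𝟙 M) : Nonempty (M ≅ N) := by
  have h1 : (r ≫ s) ≫ (r ≫ s) = r ≫ s := by
    rw [Category.assoc, reassoc_of% h]
  rcases hN.2 _ h1 with h2 | h2
  · exfalso
    apply hM.1
    rw [IsZero.iff_id_eq_zero, ← h, ← Category.id_comp s, ← h, Category.assoc, Category.assoc]
    rw [← Category.assoc r s r, h2, Limits.zero_comp, Limits.comp_zero]
  · exact ⟨⟨s, r, h, h2⟩⟩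

/-- the multiplicity in terms of the quotient space -/
lemma rk_eq_finrank {M : 𝓜} (hM : Indec M) (hfin : ∀ A B : 𝓜, Module.Finite F (A ⟶ B)) (A : 𝓜) :
    rk M hM (hfin M M) A = Module.finrank F ((M ⟶ A) ⧸ Rad M hM (hfin M M) A) := by
  have := hfin M A
  have h := Submodule.finrank_quotient_add_finrank (Rad M hM (hfin M M) A)
  rw [rk]
  omega

lemma mem_rad {M : 𝓜} (hM : Indec M) (hfin : Module.Finite F (M ⟶ M)) {A : 𝓜} (f : M ⟶ A) :
    f ∈ Rad M hM hfin A ↔ NonSplit f := by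
  constructor
  · intro h g hg
    exact h g (by rw [hg]; infer_instance)
  · intro h g hg
    exact h (g ≫ inv (f ≫ g)) (by rw [← Category.assoc, IsIso.hom_inv_id])

end

section

variable {k F : Type} [Field k] [Field F] {𝓜 : Type w} [Category.{x} 𝓜]
  [Preadditive 𝓜] [Linear F 𝓜] [HasBinaryBiproducts 𝓜] [MonoidalCategory 𝓜]
  {H : PureMotives.{w, x} k F 𝓜}

lemma exists_measure {M : 𝓜} (hM : Indec M) : ∃ χ : K0 k →+ ℤ,
    (∀ X : Var k, SmoothProjective X.1 → χ (cls X) = rk M hM (H.finite M M) (H.h X.1)) ∧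
    ∀ (c : K0 k) (A : 𝓜), Represents H c A → χ c = rk M hM (H.finite M M) A := by
  obtain ⟨χ, hχ⟩ := H.measure (rk M hM (H.finite M M)) (fun A B ⟨e⟩ => rk_iso hM H.finite e)
    (fun A B => rk_sum hM H.finite A B)
  refine ⟨χ, hχ, ?_⟩
  rintro c A ⟨V, V', hV, hV', ⟨e⟩, rfl⟩
  rw [map_sub, hχ V hV, hχ V' hV', rk_iso hM H.finite e, rk_sum hM H.finite, add_sub_cancel_left]

variable [IsIdempotentComplete 𝓜]

theorem iso_of_represents {c c' : K0 k} {A A' : 𝓜} (hc : Represents H c A)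
    (hc' : Represents H c' A') {n : ℤ} (hn : n ≠ 0) (h : n • c = n • c') : Nonempty (A ≅ A') := by
  refine iso_of_rk H.finite _ A A' le_rfl fun M hM => ?_
  obtain ⟨χ, _, h2⟩ := exists_measure (H := H) hM
  have h3 := congrArg χ h
  rw [map_zsmul, map_zsmul, h2 c A hc, h2 c' A' hc', smul_eq_mul, smul_eq_mul] at h3
  exact mul_left_cancel₀ hn h3

omit [Linear F 𝓜] [HasBinaryBiproducts 𝓜] [IsIdempotentComplete 𝓜] [Preadditive 𝓜] in
lemma untwist_iso {A B : 𝓜} (T : Twists.{w, x} 𝓜) (m : ℤ) (e : A ⊗ T.T m ≅ B ⊗ T.T m) :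
    Nonempty (A ≅ B) := by
  obtain ⟨d⟩ := T.add m (-m)
  obtain ⟨e0⟩ := T.unit
  rw [add_neg_cancel] at d
  have key : ∀ C : 𝓜, Nonempty ((C ⊗ T.T m) ⊗ T.T (-m) ≅ C) := fun C =>
    ⟨α_ _ _ _ ≪≫ whiskerLeftIso C (d.symm ≪≫ e0) ≪≫ ρ_ C⟩
  obtain ⟨e1⟩ := key A
  obtain ⟨e2⟩ := key B
  exact ⟨e1.symm ≪≫ whiskerRightIso e _ ≪≫ e2⟩

/-- `L`-equivalent varieties have isomorphic homological motives. -/
theorem iso_of_lEquivalent {T : Twists.{w, x} 𝓜} {X X' : Var k} (hX : SmoothProjective X.1)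
    (hX' : SmoothProjective X'.1) (h : LEquivalent H T X X') : Nonempty (H.h X.1 ≅ H.h X'.1) := by
  obtain ⟨n, hn, h | ⟨m, c, c', h1, h2, h3⟩⟩ := h
  · refine iso_of_rk H.finite _ _ _ le_rfl fun M hM => ?_
    obtain ⟨χ, h2, _⟩ := exists_measure (H := H) hM
    have h3 := congrArg χ h
    rw [map_zsmul, map_zsmul, h2 X hX, h2 X' hX', smul_eq_mul, smul_eq_mul] at h3
    exact mul_left_cancel₀ hn h3
  · obtain ⟨e⟩ := iso_of_represents h1 h2 hn h3
    exact untwist_iso T m e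

/-- The same up to classes of cellular varieties. -/
theorem iso_of_tateGroup {T : Twists.{w, x} 𝓜} (hT : ∀ m : ℤ, Indec (T.T m)) {X X' : Var k}
    (hX : SmoothProjective X.1) (hX' : SmoothProjective X'.1) {n : ℤ} (hn : n ≠ 0)
    (h : n • (cls X - cls X') ∈ tateGroup H T) (hr : SameRanks F T (H.h X.1) (H.h X'.1)) :
    Nonempty (H.h X.1 ≅ H.h X'.1) := by
  refine iso_of_rk H.finite _ _ _ le_rfl fun M hM => ?_
  by_cases hMT : ∃ m : ℤ, Nonempty (M ≅ T.T m)
  · obtain ⟨m, ⟨e⟩⟩ := hMT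
    have h1 := hr m (Rad (T.T m) (hT m) (H.finite _ _) _) (Rad (T.T m) (hT m) (H.finite _ _) _)
      (fun f => mem_rad _ _ f) fun f => mem_rad _ _ f
    have h2 : ∀ A : 𝓜, rk M hM (H.finite M M) A = rk (T.T m) (hT m) (H.finite _ _) A := by
      intro A
      let l : (M ⟶ A) ≃ₗ[F] (T.T m ⟶ A) := Linear.homCongr F e (Iso.refl A)
      have hl : ∀ f, l f = e.inv ≫ f := fun f => by simp [l, Linear.homCongr]
      have h3 : (Rad M hM (H.finite M M) A).map (l : (M ⟶ A) →ₗ[F] (T.T m ⟶ A)) =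
          Rad (T.T m) (hT m) (H.finite _ _) A := by
        ext f
        rw [mem_rad]
        constructor
        · rintro ⟨f, hf, rfl⟩ g hg
          refine (mem_rad _ _ f).1 hf (g ≫ e.inv) ?_
          change l f ≫ g = 𝟙 _ at hg
          rw [hl, Category.assoc] at hg
          rw [← Category.assoc, ← cancel_epi e.inv, ← Category.assoc, ← Category.assoc,
            Category.assoc e.inv f g, hg, Category.id_comp, Category.comp_id]
        · intro hf
          refine ⟨e.hom ≫ f, (mem_rad _ _ _).2 fun g hg => hf (g ≫ e.hom) ?_, ?_⟩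
          · rw [← cancel_epi e.hom, ← Category.assoc, ← Category.assoc, hg, Category.id_comp,
              Category.comp_id]
          · change l _ = _
            rw [hl, e.inv_hom_id_assoc]
      rw [rk, rk, l.finrank_eq, ← h3, LinearEquiv.finrank_map_eq l]
    rw [h2, h2, rk_eq_finrank (hT m) H.finite, rk_eq_finrank (hT m) H.finite, h1]
  · obtain ⟨χ, h2, _⟩ := exists_measure (H := H) hM
    have hz : ∀ A : 𝓜, Span (fun A => ∃ m : ℤ, A = T.T m) A → rk M hM (H.finite M M) A = 0 := by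
      intro A hA
      by_contra hc
      have h3 : ∃ (s : M ⟶ A) (r : A ⟶ M), s ≫ r = 𝟙 M := retract_of_rk hM H.finite hc
      clear hc
      induction hA with
      | base A hA =>
        obtain ⟨m, rfl⟩ := hA
        obtain ⟨s, r, hsr⟩ := h3
        exact hMT ⟨m, retract_iso (hT m) hM s r hsr⟩
      | zero A hA =>
        obtain ⟨s, r, hsr⟩ := h3
        exact hM.1 ((IsZero.iff_id_eq_zero M).2 (by rw [← hsr, hA.eq_of_tgt s 0, Limits.zero_comp]))
      | @retract A B s' r' hsr' _ ih =>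
        obtain ⟨s, r, hsr⟩ := h3
        refine ih ⟨s ≫ s', r' ≫ r, ?_⟩
        rw [Category.assoc, reassoc_of% hsr', hsr]
      | sum A B _ _ i1 i2 =>
        obtain ⟨s, r, hsr⟩ := h3
        have h4 : s ≫ r = (s ≫ biprod.fst) ≫ (biprod.inl ≫ r) +
            (s ≫ biprod.snd) ≫ (biprod.inr ≫ r) := by
          have h5 : s ≫ (biprod.fst ≫ biprod.inl + biprod.snd ≫ biprod.inr) ≫ r = s ≫ r := by
            rw [biprod.total, Category.id_comp]
          rw [← h5]
          simp only [Preadditive.add_comp, Preadditive.comp_add, Category.assoc]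
        have h6 : IsIso ((s ≫ biprod.fst) ≫ (biprod.inl ≫ r) +
            (s ≫ biprod.snd) ≫ (biprod.inr ≫ r)) := by
          rw [← h4, hsr]
          infer_instance
        rcases isIso_or hM (H.finite M M) _ _ h6 with h7 | h7
        · exact i1 ⟨s ≫ biprod.fst, (biprod.inl ≫ r) ≫ inv ((s ≫ biprod.fst) ≫ (biprod.inl ≫ r)), by
            rw [← Category.assoc, IsIso.hom_inv_id]⟩
        · exact i2 ⟨s ≫ biprod.snd, (biprod.inr ≫ r) ≫ inv ((s ≫ biprod.snd) ≫ (biprod.inr ≫ r)), by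
            rw [← Category.assoc, IsIso.hom_inv_id]⟩
    have hker : tateGroup H T ≤ χ.ker := by
      refine (AddSubgroup.closure_le _).2 ?_
      rintro _ ⟨Y, hY, hPY, rfl⟩
      change χ (cls Y) = 0
      rw [h2 Y hY, hz _ hPY]
    have h3 : χ (n • (cls X - cls X')) = 0 := hker h
    rw [map_zsmul, map_sub, h2 X hX, h2 X' hX', smul_eq_mul] at h3
    exact sub_eq_zero.1 ((mul_eq_zero.1 h3).resolve_left hn)

end

section

variable {k F : Type} [Field k] [Field F] {𝓜 : Type w} [Category.{x} 𝓜]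
  [Preadditive 𝓜] [Linear F 𝓜] [HasBinaryBiproducts 𝓜] [MonoidalCategory 𝓜]
  {H : PureMotives.{w, x} k F 𝓜} {𝒞 : Type y} [Category.{z} 𝒞] [Preadditive 𝒞]

omit [Linear F 𝓜] [HasBinaryBiproducts 𝓜] [MonoidalCategory 𝓜] in
/-- Isomorphisms lift along full functors with nilpotent kernel. -/
theorem lift_iso (π : 𝒞 ⥤ 𝓜) (hadd : π.Additive) (hfull : π.Full) {A B : 𝒞}
    (hA : NilpotentKernel π A) (hB : NilpotentKernel π B) (e : π.obj A ≅ π.obj B) :
    Nonempty (A ≅ B) := by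
  obtain ⟨f, hf⟩ := π.map_surjective e.hom
  obtain ⟨g, hg⟩ := π.map_surjective e.inv
  have key : ∀ {C : 𝒞}, NilpotentKernel π C → ∀ u : C ⟶ C, π.map u = 𝟙 _ → IsIso u := by
    intro C hC u hu
    let v : End C := 𝟙 C - u
    have h1 : IsNilpotent v := by
      refine hC v ?_
      change π.map (𝟙 C - u) = 0
      rw [Functor.map_sub, CategoryTheory.Functor.map_id, hu, sub_self]
    have h2 : IsUnit ((1 : End C) - v) := h1.isUnit_one_sub
    have h3 : (1 : End C) - v = u := by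
      change 𝟙 C - (𝟙 C - u) = u
      abel
    rw [h3] at h2
    exact (isUnit_iff_isIso u).1 h2
  have h1 : IsIso (f ≫ g) := key hA _ (by rw [π.map_comp, hf, hg, e.hom_inv_id])
  have h2 : IsIso (g ≫ f) := key hB _ (by rw [π.map_comp, hf, hg, e.inv_hom_id])
  have h3 : IsSplitMono f := ⟨⟨⟨g ≫ inv (f ≫ g), by rw [← Category.assoc, IsIso.hom_inv_id]⟩⟩⟩
  have h4 : IsSplitEpi f := ⟨⟨⟨inv (g ≫ f) ≫ g, by rw [Category.assoc, IsIso.inv_hom_id]⟩⟩⟩
  have h5 : IsIso f := isIso_of_mono_of_isSplitEpi f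
  exact ⟨asIso f⟩

theorem chow_iso (C : ChowMotives.{w, x, y, z} H 𝒞) {X X' : Sch k} (hX : SmoothProjective X)
    (hX' : SmoothProjective X') (h : NilpotentKernel C.π (C.hC X))
    (h' : NilpotentKernel C.π (C.hC X')) (e : Nonempty (H.h X ≅ H.h X')) :
    Nonempty (C.hC X ≅ C.hC X') := by
  obtain ⟨e⟩ := e
  obtain ⟨e1⟩ := C.iso X hX
  obtain ⟨e2⟩ := C.iso X' hX'
  exact lift_iso C.π C.additive C.full h h' (e1 ≪≫ e ≪≫ e2.symm)

end

end Pool.Agent.U483.KR
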